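import Mathlib
import Pool.Agent.helper4.AN.Defs

/-!
MODULE H for MP_aef7b4_an, part 1: the reparametrisation of `[0, 1/2]`.
-/

open Set Topology Filter

namespace ANB.H31

lemma wt_pos (i : ℕ) : 0 < wt i := by unfold wt; positivity

lemma summable_wt : Summable wt := by
  have := (summable_geometric_of_lt_one (r := (1/2:ℝ)) (by norm_num) (by norm_num))
  exact (summable_nat_add_iff 2).2 this

lemma tsum_wt : ∑' i, wt i = 1/2 := by
  have h : ∀ i, wt i = (1/4) * (1/2:ℝ)^i := fun i => by unfold wt; rw [pow_add]; ring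
  simp_rw [h]
  rw [tsum_mul_left, tsum_geometric_two]; norm_num

lemma wt_le (i : ℕ) : wt i ≤ 1/4 := by
  unfold wt
  rw [pow_add]
  have : (1/2:ℝ)^i ≤ 1 := pow_le_one₀ (by norm_num) (by norm_num)
  nlinarith

/-- summability of a function dominated by the weights -/
lemma summ (f : ℕ → ℝ) (h0 : ∀ i, 0 ≤ f i) (h1 : ∀ i, f i ≤ wt i) : Summable f :=
  Summable.of_nonneg_of_le h0 h1 summable_wt

lemma summ_if (p : ℕ → Prop) [DecidablePred p] : Summable fun j => if p j then wt j else 0 := by
  apply summ
  · intro i; split_ifs; exacts [(wt_pos i).le, le_rfl]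
  · intro i; split_ifs; exacts [le_rfl, (wt_pos i).le]

lemma summ_eq (i : ℕ) (a : ℝ) : Summable fun j => if j = i then a else 0 :=
  (hasSum_ite_eq i a).summable

lemma summable_wt_comp (g : ℕ ≃ ℕ) : Summable fun j => wt (g j) :=
  g.summable_iff.2 summable_wt

lemma tsum_wt_comp (g : ℕ ≃ ℕ) : ∑' j, wt (g j) = 1/2 := by
  rw [← tsum_wt]; exact g.tsum_eq wt

variable {r : ℕ → ℕ → Bool}

/-- `lft r i + a` as a sum -/
lemma lft_add (i : ℕ) (a : ℝ) :
    lft r i + a = ∑' k, ((if r k i = true then wt k else 0) + (if k = i then a else 0)) := by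
  rw [(summ_if _).tsum_add (summ_eq i a), tsum_ite_eq]; rfl

lemma summ_lft_add (i : ℕ) (a : ℝ) :
    Summable fun k => ((if r k i = true then wt k else 0) + (if k = i then a else 0)) :=
  (summ_if _).add (summ_eq i a)

lemma lft_nonneg (i : ℕ) : 0 ≤ lft r i :=
  tsum_nonneg fun j => by split_ifs; exacts [(wt_pos j).le, le_rfl]

lemma lft_add_le (h : IsLin r) {i j : ℕ} (hij : r i j = true) : lft r i + wt i ≤ lft r j := by
  rw [lft_add]
  refine (summ_lft_add i _).tsum_le_tsum (fun k => ?_) (summ_if _)
  by_cases hk : k = i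
  · subst hk
    simp [h.irrefl, hij]
  · by_cases hki : r k i = true
    · simp [hki, h.trans k i j hki hij, hk]
    · simp only [hki, hk, if_false, add_zero]
      simp only [Bool.false_eq_true, if_false]
      split_ifs; exacts [(wt_pos k).le, le_rfl]

lemma lft_add_le_half (h : IsLin r) (i : ℕ) : lft r i + wt i ≤ 1/2 := by
  rw [lft_add, ← tsum_wt]
  refine (summ_lft_add i _).tsum_le_tsum (fun k => ?_) summable_wt
  by_cases hk : k = i
  · subst hk
    simp [h.irrefl]
  · by_cases hki : r k i = true
    · simp [hki, hk]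
    · simp only [hki, hk, if_false, add_zero]
      simp only [Bool.false_eq_true, if_false]
      exact (wt_pos k).le

/-- the position of `s` with respect to `J j` -/
noncomputable def cc (r : ℕ → ℕ → Bool) (j : ℕ) (s : ℝ) : ℝ := max 0 (min 1 ((s - lft r j) / wt j))

lemma cc_nonneg (j : ℕ) (s : ℝ) : 0 ≤ cc r j s := le_max_left _ _

lemma cc_le_one (j : ℕ) (s : ℝ) : cc r j s ≤ 1 := max_le zero_le_one (min_le_left _ _)

lemma cc_cont (j : ℕ) : Continuous (cc r j) := by
  unfold cc
  fun_prop

lemma cc_pos {j : ℕ} {s : ℝ} (h : 0 < cc r j s) : lft r j + wt j * cc r j s ≤ s := by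
  have hw := wt_pos j
  unfold cc at h ⊢
  rcases lt_max_iff.1 h with h | h
  · exact absurd h (lt_irrefl _)
  · rw [max_eq_right h.le]
    have := min_le_right (1:ℝ) ((s - lft r j) / wt j)
    have h2 : wt j * min 1 ((s - lft r j) / wt j) ≤ wt j * ((s - lft r j) / wt j) :=
      mul_le_mul_of_nonneg_left this hw.le
    rw [mul_div_cancel₀ _ hw.ne'] at h2
    linarith

lemma cc_lt_one {j : ℕ} {s : ℝ} (h : cc r j s < 1) : s ≤ lft r j + wt j * cc r j s := by
  have hw := wt_pos j
  unfold cc at h ⊢
  have h1 : (s - lft r j) / wt j < 1 := by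
    by_contra hc
    push Not at hc
    rw [min_eq_left hc, max_eq_right zero_le_one] at h
    exact lt_irrefl _ h
  rw [min_eq_right h1.le]
  have h2 : wt j * ((s - lft r j) / wt j) ≤ wt j * max 0 ((s - lft r j) / wt j) :=
    mul_le_mul_of_nonneg_left (le_max_right _ _) hw.le
  rw [mul_div_cancel₀ _ hw.ne'] at h2
  linarith

lemma cc_eq_zero {j : ℕ} {s : ℝ} (h : s ≤ lft r j) : cc r j s = 0 := by
  unfold cc
  apply max_eq_left
  refine (min_le_right _ _).trans ?_
  exact div_nonpos_of_nonpos_of_nonneg (by linarith) (wt_pos j).le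

lemma cc_eq_one {j : ℕ} {s : ℝ} (h : lft r j + wt j ≤ s) : cc r j s = 1 := by
  unfold cc
  have : 1 ≤ (s - lft r j) / wt j := by
    rw [le_div_iff₀ (wt_pos j)]; linarith
  rw [min_eq_left this, max_eq_right zero_le_one]

lemma cc_eq_of {j : ℕ} {s c : ℝ} (h0 : 0 < c) (h1 : c < 1) (h : s = lft r j + wt j * c) :
    cc r j s = c := by
  unfold cc
  have hw := wt_pos j
  have : (s - lft r j) / wt j = c := by
    rw [h]; field_simp; ring
  rw [this, min_eq_right h1.le, max_eq_right h0.le]

/-- consistency of the positions -/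
lemma cc_cons (h : IsLin r) (s : ℝ) (i j : ℕ) (hij : r i j = true) (hj : 0 < cc r j s) :
    cc r i s = 1 := by
  apply cc_eq_one
  have h1 := lft_add_le h hij
  have h2 := cc_pos hj
  have h3 := mul_pos (wt_pos j) hj
  linarith

/-- a consistent sequence of positions comes from its weighted sum -/
lemma cc_sum (h : IsLin r) (c : ℕ → ℝ) (hc0 : ∀ i, 0 ≤ c i) (hc1 : ∀ i, c i ≤ 1)
    (hc : ∀ i j, r i j = true → 0 < c j → c i = 1) (i : ℕ) :
    cc r i (∑' j, wt j * c j) = c i := by
  have hs : Summable fun j => wt j * c j := by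
    apply summ
    · intro j; exact mul_nonneg (wt_pos j).le (hc0 j)
    · intro j; nlinarith [wt_pos j, hc1 j]
  have hA : 0 < c i → lft r i + wt i * c i ≤ ∑' j, wt j * c j := by
    intro hi
    rw [lft_add]
    refine (summ_lft_add i _).tsum_le_tsum (fun k => ?_) hs
    by_cases hk : k = i
    · subst hk; simp [h.irrefl]
    · by_cases hki : r k i = true
      · simp [hki, hk, hc k i hki hi]
      · simp only [hki, hk, if_false, add_zero]
        simp only [Bool.false_eq_true, if_false]
        exact mul_nonneg (wt_pos k).le (hc0 k)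
  have hB : c i < 1 → ∑' j, wt j * c j ≤ lft r i + wt i * c i := by
    intro hi
    rw [lft_add]
    refine hs.tsum_le_tsum (fun k => ?_) (summ_lft_add i _)
    by_cases hk : k = i
    · subst hk; simp [h.irrefl]
    · rcases h.total k i hk with hki | hki
      · simp only [hki, hk, if_false, add_zero, if_true]
        nlinarith [wt_pos k, hc1 k]
      · have : c k = 0 := by
          by_contra hne
          have := hc i k hki (lt_of_le_of_ne (hc0 k) (Ne.symm hne))
          exact absurd this hi.ne
        simp only [this, mul_zero, hk, if_false, add_zero]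
        split_ifs; exacts [(wt_pos k).le, le_rfl]
  rcases (hc0 i).eq_or_lt with h0 | h0
  · rw [← h0]
    apply cc_eq_zero
    have := hB (by rw [← h0]; exact zero_lt_one)
    rw [← h0, mul_zero, add_zero] at this
    exact this
  · rcases (hc1 i).eq_or_lt with h1 | h1
    · rw [h1]
      apply cc_eq_one
      have := hA h0
      rwa [h1, mul_one] at this
    · exact cc_eq_of h0 h1 (le_antisymm (hB h1) (hA h0))

lemma summ_cc (s : ℝ) : Summable fun j => wt j * cc r j s := by
  apply summ
  · intro j; exact mul_nonneg (wt_pos j).le (cc_nonneg j s)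
  · intro j; nlinarith [wt_pos j, cc_le_one (r := r) j s]

lemma sum_cc_le (h : IsLin r) {s : ℝ} (hs : 0 ≤ s) : ∑' j, wt j * cc r j s ≤ s := by
  classical
  refine (summ_cc s).tsum_le_of_sum_le (fun F => ?_)
  by_cases hne : (F.filter fun j => 0 < cc r j s).Nonempty
  · obtain ⟨m, hm, hmax⟩ := Finset.exists_max_image _ (lft r) hne
    rw [Finset.mem_filter] at hm
    refine le_trans ?_ (cc_pos hm.2)
    rw [lft_add]
    refine le_trans (Finset.sum_le_sum fun k hk => ?_)
      ((summ_lft_add m _).sum_le_tsum F fun k _ => ?_)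
    · by_cases hkm : k = m
      · subst hkm; simp [h.irrefl]
      · by_cases hpos : 0 < cc r k s
        · have hlft := hmax k (Finset.mem_filter.2 ⟨hk, hpos⟩)
          rcases h.total k m hkm with hh | hh
          · simp only [hh, hkm, if_false, add_zero, if_true]
            nlinarith [wt_pos k, cc_le_one (r := r) k s]
          · have := lft_add_le h hh
            linarith [wt_pos m]
        · have : cc r k s = 0 := le_antisymm (not_lt.1 hpos) (cc_nonneg k s)
          simp only [this, mul_zero, hkm, if_false, add_zero]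
          split_ifs; exacts [(wt_pos k).le, le_rfl]
    · apply add_nonneg
      · split_ifs; exacts [(wt_pos k).le, le_rfl]
      · split_ifs; exacts [mul_nonneg (wt_pos m).le (cc_nonneg m s), le_rfl]
  · rw [Finset.not_nonempty_iff_eq_empty, Finset.filter_eq_empty_iff] at hne
    rw [Finset.sum_eq_zero]
    · exact hs
    · intro k hk
      have : cc r k s = 0 := le_antisymm (not_lt.1 (hne hk)) (cc_nonneg k s)
      rw [this, mul_zero]

lemma le_sum_cc (h : IsLin r) {s : ℝ} (hs : s ≤ 1/2) : s ≤ ∑' j, wt j * cc r j s := by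
  classical
  have hsum : Summable fun j => wt j * (1 - cc r j s) := by
    apply summ
    · intro j; exact mul_nonneg (wt_pos j).le (by linarith [cc_le_one (r := r) j s])
    · intro j; nlinarith [wt_pos j, cc_nonneg (r := r) j s]
  have key : ∑' j, wt j * (1 - cc r j s) ≤ 1/2 - s := by
    refine hsum.tsum_le_of_sum_le (fun F => ?_)
    by_cases hne : (F.filter fun j => cc r j s < 1).Nonempty
    · obtain ⟨m, hm, hmin⟩ := Finset.exists_min_image _ (lft r) hne
      rw [Finset.mem_filter] at hm
      have h1 := cc_lt_one hm.2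
      have h2 : ∑' k, (wt k - ((if r k m = true then wt k else 0) +
          (if k = m then wt m * cc r m s else 0))) = 1/2 - (lft r m + wt m * cc r m s) := by
        rw [summable_wt.tsum_sub (summ_lft_add m _), tsum_wt, ← lft_add]
      refine le_trans ?_ (le_of_eq_of_le h2 (by linarith))
      refine le_trans (Finset.sum_le_sum fun k hk => ?_)
        ((summable_wt.sub (summ_lft_add m _)).sum_le_tsum F fun k _ => ?_)
      · by_cases hkm : k = m
        · subst hkm; simp only [h.irrefl, Bool.false_eq_true, if_false, if_true]; linarith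
        · by_cases hpos : cc r k s < 1
          · have hlft := hmin k (Finset.mem_filter.2 ⟨hk, hpos⟩)
            have hh : r k m = false := by
              by_contra hcon
              rw [Bool.not_eq_false] at hcon
              have := lft_add_le h hcon
              linarith [wt_pos k]
            simp only [hh, Bool.false_eq_true, hkm, if_false, add_zero]
            nlinarith [wt_pos k, cc_nonneg (r := r) k s]
          · have : cc r k s = 1 := le_antisymm (cc_le_one k s) (not_lt.1 hpos)
            simp only [this, sub_self, mul_zero, hkm, if_false, add_zero]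
            split_ifs
            · simp
            · simpa using (wt_pos k).le
      · by_cases hkm : k = m
        · subst hkm; simp only [h.irrefl, Bool.false_eq_true, if_false, if_true]
          nlinarith [wt_pos k, cc_le_one (r := r) k s]
        · simp only [hkm, if_false, add_zero]
          split_ifs
          · simp
          · simpa using (wt_pos k).le
    · rw [Finset.not_nonempty_iff_eq_empty, Finset.filter_eq_empty_iff] at hne
      rw [Finset.sum_eq_zero]
      · linarith
      · intro k hk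
        have : cc r k s = 1 := le_antisymm (cc_le_one k s) (not_lt.1 (hne hk))
        rw [this, sub_self, mul_zero]
  have h3 : ∑' j, wt j * (1 - cc r j s) = 1/2 - ∑' j, wt j * cc r j s := by
    rw [← tsum_wt, ← summable_wt.tsum_sub (summ_cc s)]
    exact tsum_congr fun j => by ring
  linarith

lemma sum_cc (h : IsLin r) {s : ℝ} (h0 : 0 ≤ s) (h1 : s ≤ 1/2) : ∑' j, wt j * cc r j s = s :=
  le_antisymm (sum_cc_le h h0) (le_sum_cc h h1)

/-! ### the reparametrisation -/

/-- the reparametrisation of the line -/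
noncomputable def th (r : ℕ → ℕ → Bool) (g : ℕ ≃ ℕ) (s : ℝ) : ℝ :=
  min s 0 + ∑' j, wt (g j) * cc r j s + max (s - 1/2) 0

/-- heights -/
noncomputable def dl (r : ℕ → ℕ → Bool) (g : ℕ ≃ ℕ) (s : ℝ) : ℝ :=
  ∑' j, wt (g j) * min (cc r j s) (1 - cc r j s)

lemma th_cont (g : ℕ ≃ ℕ) : Continuous (th r g) := by
  unfold th
  have : Continuous fun s => ∑' j, wt (g j) * cc r j s := by
    refine continuous_tsum (fun j => continuous_const.mul (cc_cont j)) (summable_wt_comp g) ?_
    intro j s
    rw [Real.norm_eq_abs, abs_of_nonneg (mul_nonneg (wt_pos _).le (cc_nonneg _ _))]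
    nlinarith [wt_pos (g j), cc_le_one (r := r) j s]
  fun_prop

lemma dl_cont (g : ℕ ≃ ℕ) : Continuous (dl r g) := by
  unfold dl
  refine continuous_tsum (fun j => continuous_const.mul
    ((cc_cont j).min (continuous_const.sub (cc_cont j)))) (summable_wt_comp g) ?_
  intro j s
  have h1 : 0 ≤ min (cc r j s) (1 - cc r j s) :=
    le_min (cc_nonneg _ _) (by linarith [cc_le_one (r := r) j s])
  have h2 : min (cc r j s) (1 - cc r j s) ≤ 1 := (min_le_left _ _).trans (cc_le_one _ _)
  rw [Real.norm_eq_abs, abs_of_nonneg (mul_nonneg (wt_pos _).le h1)]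
  nlinarith [wt_pos (g j)]

variable {r' : ℕ → ℕ → Bool} {g : ℕ ≃ ℕ}

lemma summ_g (g : ℕ ≃ ℕ) (f : ℕ → ℝ) (h0 : ∀ i, 0 ≤ f i) (h1 : ∀ i, f i ≤ 1) :
    Summable fun j => wt (g j) * f j :=
  Summable.of_nonneg_of_le (fun j => mul_nonneg (wt_pos _).le (h0 j))
    (fun j => by nlinarith [wt_pos (g j), h1 j]) (summable_wt_comp g)

/-- reindexing -/
lemma tsum_reindex (g : ℕ ≃ ℕ) (f : ℕ → ℝ) :
    ∑' k, wt k * f (g.symm k) = ∑' j, wt (g j) * f j := by
  rw [← g.tsum_eq]
  simp

/-- **key identity** -/
lemma cc_th (h : IsLin r) (h' : IsLin r') (hg : ∀ i j, r' (g i) (g j) = r i j) (j : ℕ) (s : ℝ) :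
    cc r' (g j) (th r g s) = cc r j s := by
  by_cases h0 : s < 0
  · have e1 : ∀ j, cc r j s = 0 := fun j => cc_eq_zero (h0.le.trans (lft_nonneg j))
    have e2 : th r g s = s := by
      unfold th
      simp only [e1, mul_zero, tsum_zero]
      rw [min_eq_left h0.le, max_eq_right (by linarith)]; ring
    rw [e1, e2]
    exact cc_eq_zero (h0.le.trans (lft_nonneg _))
  push Not at h0
  by_cases h1 : 1/2 < s
  · have e1 : ∀ j, cc r j s = 1 := fun j => cc_eq_one ((lft_add_le_half h j).trans h1.le)
    have e2 : th r g s = s := by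
      unfold th
      simp only [e1, mul_one]
      rw [tsum_wt_comp, min_eq_right h0, max_eq_left (by linarith)]; ring
    rw [e1, e2]
    exact cc_eq_one ((lft_add_le_half h' _).trans h1.le)
  push Not at h1
  have e2 : th r g s = ∑' k, wt k * cc r (g.symm k) s := by
    unfold th
    rw [min_eq_right h0, max_eq_right (by linarith), tsum_reindex g (fun j => cc r j s)]; ring
  rw [e2, cc_sum h' (fun k => cc r (g.symm k) s) (fun _ => cc_nonneg _ _) (fun _ => cc_le_one _ _)]
  · simp
  · intro i k hik hk
    apply cc_cons h s _ _ _ hk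
    rw [← hg]; simpa using hik


lemma th_of_nonpos {s : ℝ} (h0 : s ≤ 0) : th r g s = s := by
  have e1 : ∀ j, cc r j s = 0 := fun j => cc_eq_zero (h0.trans (lft_nonneg j))
  unfold th
  simp only [e1, mul_zero, tsum_zero]
  rw [min_eq_left h0, max_eq_right (by linarith)]; ring

lemma th_of_ge (h : IsLin r) {s : ℝ} (h1 : 1/2 ≤ s) : th r g s = s := by
  have e1 : ∀ j, cc r j s = 1 := fun j => cc_eq_one ((lft_add_le_half h j).trans h1)
  unfold th
  simp only [e1, mul_one]
  rw [tsum_wt_comp, min_eq_right (by linarith), max_eq_left (by linarith)]; ring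

lemma th_mid {s : ℝ} (h0 : 0 ≤ s) (h1 : s ≤ 1/2) : th r g s = ∑' j, wt (g j) * cc r j s := by
  unfold th
  rw [min_eq_right h0, max_eq_right (by linarith)]; ring

lemma th_mem {s : ℝ} (h0 : 0 ≤ s) (h1 : s ≤ 1/2) : 0 ≤ th r g s ∧ th r g s ≤ 1/2 := by
  rw [th_mid h0 h1]
  refine ⟨tsum_nonneg fun j => mul_nonneg (wt_pos _).le (cc_nonneg _ _), ?_⟩
  rw [← tsum_wt_comp g]
  refine (summ_g g _ (fun j => cc_nonneg _ _) fun j => cc_le_one _ _).tsum_le_tsum (fun j => ?_)
    (summable_wt_comp g)
  nlinarith [wt_pos (g j), cc_le_one (r := r) j s]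

lemma th_inv (h : IsLin r) (h' : IsLin r') (hg : ∀ i j, r' (g i) (g j) = r i j) (s : ℝ) :
    th r' g.symm (th r g s) = s := by
  rcases le_total s 0 with h0 | h0
  · rw [th_of_nonpos h0, th_of_nonpos h0]
  rcases le_total s (1/2) with h1 | h1
  · obtain ⟨t0, t1⟩ := th_mem (r := r) (g := g) h0 h1
    rw [th_mid t0 t1, ← tsum_reindex g.symm]
    simp only [Equiv.symm_symm]
    simp only [cc_th h h' hg]
    exact sum_cc h h0 h1
  · rw [th_of_ge h h1, th_of_ge h' h1]

lemma dl_th (h : IsLin r) (h' : IsLin r') (hg : ∀ i j, r' (g i) (g j) = r i j) (e : ℕ ≃ ℕ)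
    (s : ℝ) : dl r' e (th r g s) = dl r (g.trans e) s := by
  unfold dl
  rw [← g.tsum_eq]
  simp only [cc_th h h' hg, Equiv.trans_apply]

lemma mn_nonneg (j : ℕ) (s : ℝ) : 0 ≤ min (cc r j s) (1 - cc r j s) :=
  le_min (cc_nonneg _ _) (by linarith [cc_le_one (r := r) j s])

lemma mn_le (j : ℕ) (s : ℝ) : min (cc r j s) (1 - cc r j s) ≤ 1/2 := by
  rcases le_total (cc r j s) (1/2) with h | h
  · exact (min_le_left _ _).trans h
  · exact (min_le_right _ _).trans (by linarith)

lemma dl_nonneg (g : ℕ ≃ ℕ) (s : ℝ) : 0 ≤ dl r g s :=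
  tsum_nonneg fun j => mul_nonneg (wt_pos _).le (mn_nonneg _ _)

lemma dl_le (g : ℕ ≃ ℕ) (s : ℝ) : dl r g s ≤ 1/4 := by
  have : (1/4:ℝ) = ∑' j, wt (g j) * (1/2) := by
    rw [tsum_mul_right, tsum_wt_comp]; norm_num
  rw [this]
  refine (summ_g g _ (fun j => mn_nonneg j s) fun j => (mn_le j s).trans (by norm_num)).tsum_le_tsum
    (fun j => mul_le_mul_of_nonneg_left (mn_le j s) (wt_pos _).le) ((summable_wt_comp g).mul_right _)

lemma dl_eq_zero {s : ℝ} : dl r g s = 0 ↔ ∀ j, min (cc r j s) (1 - cc r j s) = 0 := by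
  unfold dl
  rw [((summ_g g _ (fun j => mn_nonneg j s)
    fun j => (mn_le j s).trans (by norm_num)).hasSum_iff.symm.trans
    (hasSum_zero_iff_of_nonneg fun j => mul_nonneg (wt_pos _).le (mn_nonneg _ _)))]
  constructor
  · intro hh j
    have := congrFun hh j
    simp only [Pi.zero_apply, mul_eq_zero] at this
    rcases this with hx | hx
    · exact absurd hx (wt_pos _).ne'
    · exact hx
  · intro hh
    funext j
    simp [hh j]

lemma dl_near (h : IsLin r) {i : ℕ} {s : ℝ} (h0 : 0 < cc r i s) (h1 : cc r i s < 1) :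
    dl r g s = wt (g i) * min (cc r i s) (1 - cc r i s) := by
  unfold dl
  refine tsum_eq_single i fun j hj => ?_
  rcases h.total j i hj with hh | hh
  · rw [cc_cons h s j i hh h0]; simp
  · have : cc r j s = 0 := by
      by_contra hne
      have := cc_cons h s i j hh (lt_of_le_of_ne (cc_nonneg j s) (Ne.symm hne))
      exact absurd this h1.ne
    rw [this]; simp

end ANB.H31
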