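import Mathlib
import Pool.Agent.helper31.AN.Conj1

/-!
MODULE H for MP_aef7b4_an, part 2: the homeomorphism of the rectangle and the bumps.
-/

open Set Topology Filter

namespace ANB.H31

variable {r r' : ℕ → ℕ → Bool} {g : ℕ ≃ ℕ}

/-- piecewise linear map of `[0,1]` with break point `(a, b)` -/
noncomputable def pl (a b ρ : ℝ) : ℝ := b * (min ρ a / a) + max (ρ - a) 0 * ((1 - b) / (1 - a))

lemma pl_inv {a b ρ : ℝ} (ha0 : 0 ≤ a) (ha1 : a < 1) (hb1 : b < 1)
    (hab : a = 0 ↔ b = 0) (hb0 : 0 ≤ b) (hρ : 0 ≤ ρ) : pl b a (pl a b ρ) = ρ := by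
  rcases ha0.eq_or_lt with h | h
  · have hb : b = 0 := hab.1 h.symm
    subst h; subst hb
    simp [pl, hρ]
  · have hb : 0 < b := lt_of_le_of_ne hb0 (fun hh => h.ne' (hab.2 hh.symm))
    rcases le_total ρ a with h1 | h1
    · have e : pl a b ρ = b * (ρ / a) := by
        unfold pl; rw [min_eq_left h1, max_eq_right (by linarith)]; ring
      have e2 : b * (ρ / a) ≤ b := by
        have : ρ / a ≤ 1 := (div_le_one h).2 h1
        nlinarith
      rw [e]; unfold pl
      rw [min_eq_left e2, max_eq_right (by linarith)]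
      field_simp
      ring
    · have e : pl a b ρ = b + (ρ - a) * ((1 - b) / (1 - a)) := by
        unfold pl; rw [min_eq_right h1, max_eq_left (by linarith), div_self h.ne']; ring
      have e2 : 0 ≤ (ρ - a) * ((1 - b) / (1 - a)) :=
        mul_nonneg (by linarith) (div_nonneg (by linarith) (by linarith))
      rw [e]; unfold pl
      rw [min_eq_right (by linarith), max_eq_left (by linarith), div_self hb.ne']
      have h2 : 1 - a ≠ 0 := by linarith
      have h3 : 1 - b ≠ 0 := by linarith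
      field_simp
      ring

lemma pl_nonneg {a b ρ : ℝ} (ha0 : 0 ≤ a) (ha1 : a < 1) (hb1 : b < 1) (hb0 : 0 ≤ b) (hρ : 0 ≤ ρ) :
    0 ≤ pl a b ρ := by
  unfold pl
  have := div_nonneg (a := 1 - b) (b := 1 - a) (by linarith) (by linarith)
  have h1 : 0 ≤ min ρ a / a := div_nonneg (le_min hρ ha0) ha0
  have h2 : 0 ≤ max (ρ - a) 0 := le_max_right _ _
  positivity

lemma pl_le_one {a b ρ : ℝ} (ha0 : 0 ≤ a) (ha1 : a < 1) (hb1 : b < 1) (hb0 : 0 ≤ b)
    (hρ1 : ρ ≤ 1) : pl a b ρ ≤ 1 := by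
  unfold pl
  have h2 : 0 < (1 - b) / (1 - a) := div_pos (by linarith) (by linarith)
  have h3 : (1 - a) * ((1 - b) / (1 - a)) = 1 - b := mul_div_cancel₀ _ (by linarith)
  have h1 : min ρ a / a ≤ 1 := div_le_one_of_le₀ (min_le_right _ _) ha0
  have h4 : max (ρ - a) 0 ≤ 1 - a := max_le (by linarith) (by linarith)
  nlinarith

/-- the similarity part -/
lemma pl_low {a b ρ : ℝ} (h : ρ ≤ a) : pl a b ρ = b * (ρ / a) := by
  unfold pl; rw [min_eq_left h, max_eq_right (by linarith)]; ring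

lemma pl_one {a b : ℝ} (ha0 : 0 ≤ a) (ha1 : a < 1) (hab : a = 0 ↔ b = 0) : pl a b 1 = 1 := by
  rcases ha0.eq_or_lt with h | h
  · have hb : b = 0 := hab.1 h.symm
    subst h; subst hb
    simp [pl]
  · unfold pl
    have h2 : 1 - a ≠ 0 := by linarith
    rw [min_eq_right ha1.le, max_eq_left (by linarith), div_self h.ne', mul_div_cancel₀ _ h2]; ring

lemma pl_zero {a b : ℝ} (ha0 : 0 ≤ a) : pl a b 0 = 0 := by
  rw [pl_low ha0]; simp

/-- product of a continuous function with a bounded function that is continuous where the first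
one does not vanish -/
lemma cont_mul_bdd {X E : Type*} [TopologicalSpace X] [NormedAddCommGroup E] [NormedSpace ℝ E]
    {f : X → ℝ} {u : X → E} (hf : Continuous f) (C : ℝ) (hu : ∀ x, ‖u x‖ ≤ C)
    (hc : ∀ x, f x ≠ 0 → ContinuousAt u x) : Continuous fun x => f x • u x := by
  rw [continuous_iff_continuousAt]
  intro x
  by_cases h : f x = 0
  · have h1 : Tendsto (fun y => |f y| * C) (𝓝 x) (𝓝 0) := by
      have h2 : Tendsto (fun y => |f y| * C) (𝓝 x) (𝓝 (|f x| * C)) :=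
        (hf.abs.mul continuous_const).tendsto x
      simpa [h] using h2
    show Tendsto _ _ (𝓝 (f x • u x))
    rw [h, zero_smul]
    refine squeeze_zero_norm (fun y => ?_) h1
    rw [norm_smul, Real.norm_eq_abs]
    exact mul_le_mul_of_nonneg_left (hu y) (abs_nonneg _)
  · exact hf.continuousAt.smul (hc x h)

/-- break points -/
lemma dl_zero_iff (g e : ℕ ≃ ℕ) (s : ℝ) : dl r g s = 0 ↔ dl r e s = 0 := by
  rw [dl_eq_zero, dl_eq_zero]

/-- second coordinate of the homeomorphism of the rectangle -/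
noncomputable def rh (r : ℕ → ℕ → Bool) (g : ℕ ≃ ℕ) (s ρ : ℝ) : ℝ :=
  pl (dl r (Equiv.refl ℕ) s) (dl r g s) ρ

/-- the homeomorphism of the rectangle -/
noncomputable def Th (r : ℕ → ℕ → Bool) (g : ℕ ≃ ℕ) (x : ℝ × ℝ) : ℝ × ℝ :=
  (th r g x.1, rh r g x.1 x.2)

lemma dl_lt (g : ℕ ≃ ℕ) (s : ℝ) : dl r g s < 1 := (dl_le g s).trans_lt (by norm_num)

lemma rh_mem {s ρ : ℝ} (h : ρ ∈ Icc (0:ℝ) 1) : rh r g s ρ ∈ Icc (0:ℝ) 1 :=
  ⟨pl_nonneg (dl_nonneg _ _) (dl_lt _ _) (dl_lt _ _) (dl_nonneg _ _) h.1,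
    pl_le_one (dl_nonneg _ _) (dl_lt _ _) (dl_lt _ _) (dl_nonneg _ _) h.2⟩

lemma rh_zero (s : ℝ) : rh r g s 0 = 0 := pl_zero (dl_nonneg _ _)

lemma rh_one (s : ℝ) : rh r g s 1 = 1 := pl_one (dl_nonneg _ _) (dl_lt _ _) (dl_zero_iff _ _ _)

lemma rh_inv (h : IsLin r) (h' : IsLin r') (hg : ∀ i j, r' (g i) (g j) = r i j) {s ρ : ℝ}
    (hρ : 0 ≤ ρ) : rh r' g.symm (th r g s) (rh r g s ρ) = ρ := by
  unfold rh
  rw [dl_th h h' hg, dl_th h h' hg, Equiv.trans_refl, Equiv.self_trans_symm]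
  exact pl_inv (dl_nonneg _ _) (dl_lt _ _) (dl_lt _ _) (dl_zero_iff _ _ _) (dl_nonneg _ _) hρ

lemma Th_inv (h : IsLin r) (h' : IsLin r') (hg : ∀ i j, r' (g i) (g j) = r i j) {x : ℝ × ℝ}
    (hx : 0 ≤ x.2) : Th r' g.symm (Th r g x) = x := by
  unfold Th
  exact Prod.ext (th_inv h h' hg _) (rh_inv h h' hg hx)

lemma th_mem_Icc (h : IsLin r) {s : ℝ} (hs : s ∈ Icc (-1:ℝ) 1) : th r g s ∈ Icc (-1:ℝ) 1 := by
  rcases le_total s 0 with h0 | h0
  · rwa [th_of_nonpos h0]
  rcases le_total s (1/2) with h1 | h1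
  · obtain ⟨t0, t1⟩ := th_mem (r := r) (g := g) h0 h1
    exact ⟨by linarith, by linarith⟩
  · rwa [th_of_ge h h1]

lemma Th_mem (h : IsLin r) {x : ℝ × ℝ} (hx : x ∈ Rect) : Th r g x ∈ Rect :=
  ⟨th_mem_Icc h hx.1, rh_mem hx.2⟩

/-- continuity on the upper half plane -/
lemma rh_cont {X : Type*} [TopologicalSpace X] {s ρ : X → ℝ} (hs : Continuous s)
    (hρ : Continuous ρ) (h0 : ∀ x, 0 ≤ ρ x) : Continuous fun x => rh r g (s x) (ρ x) := by
  unfold rh pl
  have hg : Continuous fun x => dl r g (s x) := (dl_cont g).comp hs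
  have hr : Continuous fun x => dl r (Equiv.refl ℕ) (s x) := (dl_cont _).comp hs
  apply Continuous.add
  · have := cont_mul_bdd (f := fun x => dl r g (s x))
      (u := fun x => min (ρ x) (dl r (Equiv.refl ℕ) (s x)) / dl r (Equiv.refl ℕ) (s x)) hg 1 ?_ ?_
    · simpa only [smul_eq_mul] using this
    · intro x
      rw [Real.norm_eq_abs, abs_of_nonneg (div_nonneg (le_min (h0 x) (dl_nonneg _ _))
        (dl_nonneg _ _))]
      exact div_le_one_of_le₀ (min_le_right _ _) (dl_nonneg _ _)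
    · intro x hx
      have : dl r (Equiv.refl ℕ) (s x) ≠ 0 := fun hh => hx ((dl_zero_iff _ _ _).1 hh)
      exact (hρ.min hr).continuousAt.div hr.continuousAt this
  · refine ((hρ.sub hr).max continuous_const).mul
      ((continuous_const.sub hg).div (continuous_const.sub hr) fun x => ?_)
    linarith [dl_lt (r := r) (Equiv.refl ℕ) (s x)]

/-! ### bumps -/

/-- points near the marker `i` -/
def near (r : ℕ → ℕ → Bool) (i : ℕ) (x : ℝ × ℝ) : Prop :=
  |x.1 - ctr r i| < wt i / 16 ∧ |x.2 - wt i / 4| < wt i / 16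

lemma near_cc {i : ℕ} {x : ℝ × ℝ} (hx : near r i x) :
    0 < cc r i x.1 ∧ cc r i x.1 < 1 ∧ x.1 = lft r i + wt i * cc r i x.1 ∧
      7/16 < cc r i x.1 ∧ cc r i x.1 < 9/16 := by
  have hw := wt_pos i
  have h1 := abs_lt.1 hx.1
  unfold ctr at h1
  set c := (x.1 - lft r i) / wt i with hc
  have hxc : x.1 = lft r i + wt i * c := by rw [hc, mul_div_cancel₀ _ hw.ne']; ring
  have h2 : 7/16 < c := by
    rw [hc, lt_div_iff₀ hw]; linarith [h1.1]
  have h3 : c < 9/16 := by
    rw [hc, div_lt_iff₀ hw]; linarith [h1.2]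
  have h4 : cc r i x.1 = c := cc_eq_of (by linarith) (by linarith) hxc
  rw [h4]
  exact ⟨by linarith, by linarith, hxc, h2, h3⟩

lemma near_Th (h : IsLin r) (h' : IsLin r') (hg : ∀ i j, r' (g i) (g j) = r i j) {i : ℕ}
    {x : ℝ × ℝ} (hx : near r i x) :
    (Th r g x).1 - ctr r' (g i) = (wt (g i) / wt i) * (x.1 - ctr r i) ∧
    (Th r g x).2 - wt (g i) / 4 = (wt (g i) / wt i) * (x.2 - wt i / 4) := by
  obtain ⟨h0, h1, h2, h3, h4⟩ := near_cc hx
  have hw := wt_pos i
  have hw' := wt_pos (g i)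
  have hk := cc_th h h' hg i x.1
  have h5 : th r g x.1 = lft r' (g i) + wt (g i) * cc r i x.1 := by
    rw [← hk] at h0 h1 ⊢
    exact le_antisymm (cc_lt_one h1) (cc_pos h0)
  constructor
  · unfold Th ctr
    simp only
    rw [h5]
    conv_rhs => rw [h2]
    have h6 : cc r i (lft r i + wt i * cc r i x.1) = cc r i x.1 := by rw [← h2]
    field_simp
    ring
  · unfold Th rh
    simp only
    have hm : 7/16 < min (cc r i x.1) (1 - cc r i x.1) := lt_min h3 (by linarith)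
    rw [dl_near h h0 h1, dl_near h h0 h1, Equiv.refl_apply]
    have h7 := abs_lt.1 hx.2
    rw [pl_low (by nlinarith [h7.2])]
    have hm0 : min (cc r i x.1) (1 - cc r i x.1) ≠ 0 := by linarith
    field_simp

lemma near_Th' (h : IsLin r) (h' : IsLin r') (hg : ∀ i j, r' (g i) (g j) = r i j) {i : ℕ}
    {x : ℝ × ℝ} (hx : near r i x) : near r' (g i) (Th r g x) := by
  obtain ⟨h1, h2⟩ := near_Th h h' hg hx
  have hw := wt_pos i
  have hw' := wt_pos (g i)
  have hq : 0 < wt (g i) / wt i := div_pos hw' hw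
  unfold near
  rw [h1, h2, abs_mul, abs_mul, abs_of_pos hq]
  have e : wt (g i) / 16 = (wt (g i) / wt i) * (wt i / 16) := by field_simp
  rw [e]
  exact ⟨mul_lt_mul_of_pos_left hx.1 hq, mul_lt_mul_of_pos_left hx.2 hq⟩

lemma bump_nonneg (n i : ℕ) (x : ℝ × ℝ) : 0 ≤ bump r n i x := by
  unfold bump
  positivity

lemma bump_le (n i : ℕ) (x : ℝ × ℝ) : bump r n i x ≤ 1/8 := by
  unfold bump
  have h : 0 ≤ 16 * ((n:ℝ) + 1) * max |x.1 - ctr r i| |x.2 - wt i / 4| / wt i := by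
    have := wt_pos i
    have h2 : 0 ≤ max |x.1 - ctr r i| |x.2 - wt i / 4| := le_max_of_le_left (abs_nonneg _)
    positivity
  have : max 0 (1 - 16 * ((n:ℝ) + 1) * max |x.1 - ctr r i| |x.2 - wt i / 4| / wt i) ≤ 1 :=
    max_le zero_le_one (by linarith)
  linarith

lemma bump_far {n i : ℕ} {x : ℝ × ℝ} (hx : ¬ near r i x) : bump r n i x = 0 := by
  unfold bump
  rw [max_eq_left, mul_zero]
  have hw := wt_pos i
  have : wt i / 16 ≤ max |x.1 - ctr r i| |x.2 - wt i / 4| := by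
    by_contra hc
    push Not at hc
    exact hx ⟨(le_max_left _ _).trans_lt hc, (le_max_right _ _).trans_lt hc⟩
  have h2 : 1 ≤ 16 * ((n:ℝ) + 1) * max |x.1 - ctr r i| |x.2 - wt i / 4| / wt i := by
    rw [le_div_iff₀ hw]
    have hn : (0:ℝ) ≤ n := n.cast_nonneg
    nlinarith [mul_nonneg hn (le_trans (by positivity) this)]
  linarith

lemma bump_Th (h : IsLin r) (h' : IsLin r') (hg : ∀ i j, r' (g i) (g j) = r i j) (n i : ℕ)
    {x : ℝ × ℝ} (hx : 0 ≤ x.2) : bump r' n (g i) (Th r g x) = bump r n i x := by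
  by_cases hn : near r i x
  · obtain ⟨h1, h2⟩ := near_Th h h' hg hn
    unfold bump
    rw [h1, h2, abs_mul, abs_mul]
    have hw := wt_pos i
    have hw' := wt_pos (g i)
    have hq : 0 < wt (g i) / wt i := div_pos hw' hw
    rw [abs_of_pos hq, ← mul_max_of_nonneg _ _ hq.le]
    have : 16 * ((n:ℝ) + 1) * (wt (g i) / wt i * max |x.1 - ctr r i| |x.2 - wt i / 4|) / wt (g i)
        = 16 * ((n:ℝ) + 1) * max |x.1 - ctr r i| |x.2 - wt i / 4| / wt i := by
      field_simp
    rw [this]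
  · rw [bump_far hn]
    apply bump_far
    intro hc
    apply hn
    have hg' : ∀ i j, r (g.symm i) (g.symm j) = r' i j := fun i j => by
      rw [← hg]; simp
    have := near_Th' h' h hg' hc
    rwa [Equiv.symm_apply_apply, Th_inv h h' hg hx] at this

lemma bump_high {n i : ℕ} {x : ℝ × ℝ} (hx : wt i ≤ x.2) : bump r n i x = 0 := by
  apply bump_far
  intro hc
  have := (abs_lt.1 hc.2).2
  linarith [wt_pos i]

/-- the ideal amplitudes correspond to each other for large `n` -/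
lemma astar_Th {κ κ' : (ℕ → ℕ → Bool) × (ℕ → ℕ)} (h : IsLin κ.1) (h' : IsLin κ'.1)
    (hg : ∀ i j, κ'.1 (g i) (g j) = κ.1 i j) (hl : ∀ i, κ'.2 (g i) = κ.2 i) {c : ℝ} (hc : 0 < c) :
    ∃ n0 : ℕ, ∀ n, n0 ≤ n → ∀ x : ℝ × ℝ, c ≤ x.2 → astar κ' n (Th κ.1 g x) = astar κ n x := by
  obtain ⟨M, hM⟩ : ∃ M : ℕ, ∀ i, M ≤ i → wt i ≤ c := by
    have ht : Tendsto wt atTop (𝓝 0) := summable_wt.tendsto_atTop_zero
    have := (ht.eventually (ge_mem_nhds hc))
    exact eventually_atTop.1 this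
  refine ⟨M + ∑ i ∈ Finset.range M, g i, fun n hn x hx => ?_⟩
  have hx0 : 0 ≤ x.2 := hc.le.trans hx
  set A : ℕ → ℝ := fun i => if κ.2 i = lam n then bump κ.1 n i x else 0 with hA
  have hA0 : ∀ i, M ≤ i → A i = 0 := fun i hi => by
    simp only [hA]
    rw [bump_high ((hM i hi).trans hx)]
    simp
  have e1 : astar κ n x = ∑' i, A i := by
    unfold astar
    rw [tsum_eq_sum]
    intro i hi
    apply hA0
    simp only [Finset.mem_range, not_lt] at hi
    omega
  have e2 : astar κ' n (Th κ.1 g x) = ∑' k, A (g.symm k) := by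
    unfold astar
    rw [tsum_eq_sum (s := Finset.range (n + 1))]
    · refine Finset.sum_congr rfl fun k _ => ?_
      simp only [hA]
      have h1 := hl (g.symm k)
      have h2 := bump_Th h h' hg n (g.symm k) hx0
      rw [Equiv.apply_symm_apply] at h1 h2
      rw [h1, h2]
    · intro k hk
      apply hA0
      by_contra hlt
      push Not at hlt
      apply hk
      have : g (g.symm k) ≤ ∑ i ∈ Finset.range M, g i :=
        Finset.single_le_sum (f := fun i => g i) (fun _ _ => Nat.zero_le _)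
          (Finset.mem_range.2 hlt)
      rw [Equiv.apply_symm_apply] at this
      rw [Finset.mem_range]
      omega
  rw [e1, e2]
  exact g.symm.tsum_eq A

lemma astar_bound (κ : (ℕ → ℕ → Bool) × (ℕ → ℕ)) (n : ℕ) (x : ℝ × ℝ) :
    |astar κ n x| ≤ (n + 1) / 8 := by
  unfold astar
  refine (Finset.abs_sum_le_sum_abs _ _).trans ?_
  have : ∀ i ∈ Finset.range (n + 1), |if κ.2 i = lam n then bump κ.1 n i x else 0| ≤ 1/8 := by
    intro i _
    split_ifs
    · rw [abs_of_nonneg (bump_nonneg _ _ _)]; exact bump_le _ _ _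
    · simp
  refine (Finset.sum_le_sum this).trans ?_
  simp
  linarith

end ANB.H31
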