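import Mathlib
import Pool.Agent.helper31.AN.Conj2

/-!
MODULE H for MP_aef7b4_an, part 3: the transfer function and the conjugacy.
-/

open Set Topology Filter

namespace ANB.H31

lemma ee_add (x y : ℝ) : ee (x + y) = ee x * ee y := by
  unfold ee; rw [mul_add, Circle.exp_add]

lemma ee_neg (x : ℝ) : ee (-x) = (ee x)⁻¹ := by
  unfold ee; rw [mul_neg, Circle.exp_neg]

lemma ee_nat (n : ℕ) (x : ℝ) : ee (n * x) = ee x ^ n := by
  unfold ee; rw [← Circle.exp_natCast_mul]; ring_nf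

lemma ee_cont : Continuous ee := by
  unfold ee; exact Circle.exp.continuous.comp (continuous_const.mul continuous_id)

/-! ### the suspension -/

section
variable {E : Type*} [NormedAddCommGroup E] [NormedSpace ℝ E]

/-- the vector of norm `√(1 - y²)` in the direction of `w` -/
noncomputable def sus (y : ℝ) (w : E) : E := Real.sqrt (1 - y ^ 2) • (‖w‖⁻¹ • w)

lemma sus_norm {y : ℝ} {w : E} (hy : y ^ 2 ≤ 1) (h : w = 0 → y ^ 2 = 1) :
    ‖sus y w‖ ^ 2 + y ^ 2 = 1 := by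
  unfold sus
  by_cases hw : w = 0
  · simp [hw, h hw]
  · have hn : ‖w‖ ≠ 0 := norm_ne_zero_iff.2 hw
    rw [norm_smul, norm_smul, norm_inv, norm_norm, inv_mul_cancel₀ hn, mul_one,
      Real.norm_eq_abs, sq_abs, Real.sq_sqrt (by linarith)]
    ring

lemma sus_sus {y y' : ℝ} {w : E} (h1 : ‖w‖ ^ 2 + y ^ 2 = 1) (h2 : w ≠ 0 → y' ^ 2 < 1) :
    sus y (sus y' w) = w := by
  by_cases hw : w = 0
  · subst hw; simp [sus]
  · have hn : ‖w‖ ≠ 0 := norm_ne_zero_iff.2 hw
    have hpos : 0 < Real.sqrt (1 - y' ^ 2) := Real.sqrt_pos.2 (by linarith [h2 hw])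
    have e1 : Real.sqrt (1 - y ^ 2) = ‖w‖ := by
      rw [← h1, add_sub_cancel_right, Real.sqrt_sq (norm_nonneg _)]
    unfold sus
    rw [norm_smul, norm_smul, norm_inv, norm_norm, inv_mul_cancel₀ hn, mul_one,
      Real.norm_eq_abs, abs_of_pos hpos, smul_smul, smul_smul, smul_smul, e1]
    have : ‖w‖ * (Real.sqrt (1 - y' ^ 2))⁻¹ * Real.sqrt (1 - y' ^ 2) * ‖w‖⁻¹ = 1 := by
      field_simp
    rw [this, one_smul]

lemma sus_cont {X : Type*} [TopologicalSpace X] {y : X → ℝ} {w : X → E} (hy : Continuous y)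
    (hw : ∀ x, w x ≠ 0 → ContinuousAt w x) (h : ∀ x, w x = 0 → y x ^ 2 = 1) :
    Continuous fun x => sus (y x) (w x) := by
  unfold sus
  refine cont_mul_bdd (Real.continuous_sqrt.comp (continuous_const.sub (hy.pow 2))) 1 ?_ ?_
  · intro x
    by_cases h0 : w x = 0
    · simp [h0]
    · rw [norm_smul, norm_inv, norm_norm, inv_mul_cancel₀ (norm_ne_zero_iff.2 h0)]
  · intro x hx
    have h0 : w x ≠ 0 := by
      intro h0
      apply hx
      simp [h x h0]
    exact ((hw x h0).norm.inv₀ (norm_ne_zero_iff.2 h0)).smul (hw x h0)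

end

lemma sus_rot (y : ℝ) (e : Circle) (w : ℂ) : sus y ((e : ℂ) * w) = (e : ℂ) * sus y w := by
  unfold sus
  rw [norm_mul, Circle.norm_coe, one_mul]
  simp only [Complex.real_smul]
  ring

/-! ### the circle factor -/

variable {r r' : ℕ → ℕ → Bool} {g : ℕ ≃ ℕ}

lemma circle_sq (σ : Circle) : (σ : ℂ).im ^ 2 + (σ : ℂ).re ^ 2 = 1 := by
  have := Circle.normSq_coe σ
  rw [Complex.normSq_apply] at this
  nlinarith

lemma circle_re_mem (σ : Circle) : (σ : ℂ).re ∈ Icc (-1:ℝ) 1 := by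
  have := circle_sq σ
  constructor <;> nlinarith [sq_nonneg (σ : ℂ).im]

lemma sq_le_one_of_mem {s : ℝ} (h : s ∈ Icc (-1:ℝ) 1) : s ^ 2 ≤ 1 := by
  nlinarith [h.1, h.2]

lemma sq_eq_one_iff_of_side_eq {s : ℝ} (hs : s ^ 2 = 1) : s = 1 ∨ s = -1 := by
  have : (s - 1) * (s + 1) = 0 := by ring_nf; linarith
  rcases mul_eq_zero.1 this with h | h
  · left; linarith
  · right; linarith

lemma th_end (h : IsLin r) {s : ℝ} (hs : s ^ 2 = 1) : th r g s ^ 2 = 1 := by
  rcases sq_eq_one_iff_of_side_eq hs with h1 | h1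
  · rw [h1, th_of_ge h (by norm_num)]; norm_num
  · rw [h1, th_of_nonpos (by norm_num)]; norm_num

/-- the map of the circle -/
noncomputable def circ (h : IsLin r) (g : ℕ ≃ ℕ) (σ : Circle) : Circle :=
  ⟨⟨th r g (σ : ℂ).re, sus (th r g (σ : ℂ).re) (σ : ℂ).im⟩, by
    have h1 := sus_norm (E := ℝ) (y := th r g (σ : ℂ).re) (w := (σ : ℂ).im)
      (sq_le_one_of_mem (th_mem_Icc h (circle_re_mem σ))) (fun h0 => th_end h (by
        have := circle_sq σ
        rw [h0] at this; linarith))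
    rw [Real.norm_eq_abs, sq_abs] at h1
    show _ ∈ Metric.sphere (0:ℂ) 1
    rw [mem_sphere_zero_iff_norm, Complex.norm_def, Complex.normSq_apply, Real.sqrt_eq_one]
    simp only
    nlinarith⟩

@[simp] lemma circ_re (h : IsLin r) (g : ℕ ≃ ℕ) (σ : Circle) :
    (circ h g σ : ℂ).re = th r g (σ : ℂ).re := rfl

@[simp] lemma circ_im (h : IsLin r) (g : ℕ ≃ ℕ) (σ : Circle) :
    (circ h g σ : ℂ).im = sus (th r g (σ : ℂ).re) (σ : ℂ).im := rfl

lemma th_sq_lt (h : IsLin r) (h' : IsLin r') (hg : ∀ i j, r' (g i) (g j) = r i j) {s : ℝ}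
    (hs : s ∈ Icc (-1:ℝ) 1) (h1 : s ^ 2 ≠ 1) : th r g s ^ 2 < 1 := by
  refine lt_of_le_of_ne (sq_le_one_of_mem (th_mem_Icc h hs)) fun hc => h1 ?_
  have := th_end (g := g.symm) h' hc
  rwa [th_inv h h' hg] at this

lemma circ_inv (h : IsLin r) (h' : IsLin r') (hg : ∀ i j, r' (g i) (g j) = r i j) (σ : Circle) :
    circ h' g.symm (circ h g σ) = σ := by
  apply Circle.ext
  apply Complex.ext
  · simp only [circ_re]
    exact th_inv h h' hg _
  · simp only [circ_im, circ_re]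
    rw [th_inv h h' hg]
    have h2 := circle_sq σ
    apply sus_sus
    · rw [Real.norm_eq_abs, sq_abs]; exact h2
    · intro h0
      refine th_sq_lt h h' hg (circle_re_mem σ) fun hc => h0 ?_
      rw [hc] at h2
      have : (σ : ℂ).im ^ 2 = 0 := by linarith
      exact pow_eq_zero_iff (two_ne_zero) |>.1 this

lemma circle_coe_cont : Continuous fun σ : Circle => (σ : ℂ) := continuous_subtype_val

lemma circ_cont (h : IsLin r) (g : ℕ ≃ ℕ) : Continuous (circ h g) := by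
  have h1 : Continuous fun σ : Circle => th r g (σ : ℂ).re :=
    (th_cont g).comp (Complex.continuous_re.comp circle_coe_cont)
  have h2 : Continuous fun σ : Circle => sus (th r g (σ : ℂ).re) (σ : ℂ).im := by
    refine sus_cont h1 (fun x _ => (Complex.continuous_im.comp circle_coe_cont).continuousAt)
      fun σ h0 => th_end h ?_
    have := circle_sq σ
    rw [h0] at this; linarith
  apply Continuous.subtype_mk
  have h3 : Continuous fun σ : Circle => ((th r g (σ : ℂ).re : ℝ) : ℂ) +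
      ((sus (th r g (σ : ℂ).re) (σ : ℂ).im : ℝ) : ℂ) * Complex.I := by fun_prop
  refine h3.congr fun σ => ?_
  exact (Complex.mk_eq_add_mul_I _ _).symm

/-! ### the transfer function -/

/-- the transfer function -/
noncomputable def VV (R : Rates) (r : ℕ → ℕ → Bool) (g : ℕ ≃ ℕ) (P P' : ℕ → ℝ × ℝ → ℝ) (z : ℂ)
    (x : ℝ × ℝ) : ℝ :=
  ∑' n, 2 * (P' n (Th r g x) - P n x) * (z ^ (R.q n)).re

variable {κ κ' : (ℕ → ℕ → Bool) × (ℕ → ℕ)} {P P' : ℕ → ℝ × ℝ → ℝ}

/-- uniform bound for the terms -/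
lemma term_bound (hP : Amp κ P) (hP' : Amp κ' P') (h : IsLin κ.1) (h' : IsLin κ'.1)
    (hg : ∀ i j, κ'.1 (g i) (g j) = κ.1 i j) (hl : ∀ i, κ'.2 (g i) = κ.2 i) {c : ℝ} (hc : 0 < c) :
    ∃ u : ℕ → ℝ, Summable u ∧ ∀ n, ∀ x ∈ Rect, c ≤ x.2 →
      |2 * (P' n (Th κ.1 g x) - P n x)| ≤ u n := by
  obtain ⟨n0, hn0⟩ := astar_Th h h' hg hl hc
  refine ⟨fun n => 4 * (1/2:ℝ) ^ n + if n < n0 then ((n:ℝ) + 1) / 2 else 0, ?_, ?_⟩
  · refine (summable_geometric_two.mul_left 4).add ?_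
    apply summable_of_ne_finset_zero (s := Finset.range n0)
    intro b hb
    rw [Finset.mem_range] at hb
    simp [hb]
  · intro n x hx hxc
    have h1 := hP.approx n x hx
    have h2 := hP'.approx n (Th κ.1 g x) (Th_mem h hx)
    rw [abs_le] at h1 h2 ⊢
    by_cases hn : n < n0
    · simp only [hn, if_true]
      have h3 := abs_le.1 (astar_bound κ n x)
      have h4 := abs_le.1 (astar_bound κ' n (Th κ.1 g x))
      constructor <;> linarith [h1.1, h1.2, h2.1, h2.2, h3.1, h3.2, h4.1, h4.2]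
    · simp only [hn, if_false, add_zero]
      rw [hn0 n (not_lt.1 hn) x hxc] at h2
      constructor <;> linarith [h1.1, h1.2, h2.1, h2.2]

lemma re_pow_le (z : Circle) (q : ℕ) : |((z : ℂ) ^ q).re| ≤ 1 := by
  refine (Complex.abs_re_le_norm _).trans ?_
  rw [norm_pow, Circle.norm_coe, one_pow]

lemma VV_summable (R : Rates) (hP : Amp κ P) (hP' : Amp κ' P') (h : IsLin κ.1) (h' : IsLin κ'.1)
    (hg : ∀ i j, κ'.1 (g i) (g j) = κ.1 i j) (hl : ∀ i, κ'.2 (g i) = κ.2 i) (z : Circle)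
    {x : ℝ × ℝ} (hx : x ∈ Rect) (h0 : 0 < x.2) :
    Summable fun n => 2 * (P' n (Th κ.1 g x) - P n x) * ((z : ℂ) ^ (R.q n)).re := by
  obtain ⟨u, hu, hb⟩ := term_bound (g := g) hP hP' h h' hg hl h0
  refine Summable.of_norm_bounded hu fun n => ?_
  rw [Real.norm_eq_abs, abs_mul]
  have h1 := hb n x hx le_rfl
  have h2 := re_pow_le z (R.q n)
  nlinarith [abs_nonneg (2 * (P' n (Th κ.1 g x) - P n x))]

lemma Phi_summable (R : Rates) (hP : Amp κ P) (z : Circle) {x : ℝ × ℝ} (hx : x ∈ Rect) :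
    Summable fun n => 2 * P n x * (((ee (R.q n * R.α) : ℂ) * (z : ℂ) ^ (R.q n)).re -
      ((z : ℂ) ^ (R.q n)).re) := by
  have hs : Summable fun n : ℕ => 2 * (1 + ((n:ℝ) + 1) / 8) * (1/2:ℝ) ^ n := by
    have h1 := summable_pow_mul_geometric_of_norm_lt_one 1 (r := (1/2:ℝ)) (by norm_num)
    have h2 := summable_geometric_two
    refine ((h1.mul_left (1/4)).add (h2.mul_left (9/4))).congr fun n => ?_
    simp only [pow_one]; ring
  refine Summable.of_norm_bounded hs fun n => ?_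
  rw [Real.norm_eq_abs, abs_mul, abs_mul]
  have h1 : |P n x| ≤ 1 + ((n:ℝ) + 1) / 8 := by
    have h1 := abs_le.1 (hP.approx n x hx)
    have h3 := abs_le.1 (astar_bound κ n x)
    have h4 : (1/2:ℝ) ^ n ≤ 1 := pow_le_one₀ (by norm_num) (by norm_num)
    rw [abs_le]
    constructor <;> linarith [h1.1, h1.2, h3.1, h3.2]
  have h2 : |((ee (R.q n * R.α) : ℂ) * (z : ℂ) ^ (R.q n)).re - ((z : ℂ) ^ (R.q n)).re|
      ≤ (1/2:ℝ) ^ n := by
    rw [← Complex.sub_re]
    refine (Complex.abs_re_le_norm _).trans ?_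
    have : (ee (R.q n * R.α) : ℂ) * (z : ℂ) ^ (R.q n) - (z : ℂ) ^ (R.q n)
        = ((ee (R.q n * R.α) : ℂ) - 1) * (z : ℂ) ^ (R.q n) := by ring
    rw [this, norm_mul, norm_pow, Circle.norm_coe, one_pow, mul_one]
    exact R.small n
  rw [abs_of_pos (by norm_num : (0:ℝ) < 2)]
  have h5 : (0:ℝ) ≤ (1/2:ℝ) ^ n := by positivity
  have h6 : 2 * |P n x| ≤ 2 * (1 + ((n:ℝ) + 1) / 8) := by linarith
  exact mul_le_mul h6 h2 (abs_nonneg _) (by positivity)

/-- the cocycle identity -/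
lemma VV_cocycle (R : Rates) (hP : Amp κ P) (hP' : Amp κ' P') (h : IsLin κ.1) (h' : IsLin κ'.1)
    (hg : ∀ i j, κ'.1 (g i) (g j) = κ.1 i j) (hl : ∀ i, κ'.2 (g i) = κ.2 i) (z : Circle)
    {x : ℝ × ℝ} (hx : x ∈ Rect) (h0 : 0 < x.2) :
    VV R κ.1 g P P' ((ee R.α * z : Circle) : ℂ) x + Phi R P z x =
      Phi R P' z (Th κ.1 g x) + VV R κ.1 g P P' z x := by
  unfold VV Phi
  rw [← (VV_summable R hP hP' h h' hg hl (ee R.α * z) hx h0).tsum_add (Phi_summable R hP z hx),
    ← (Phi_summable R hP' z (Th_mem h hx)).tsum_add (VV_summable R hP hP' h h' hg hl z hx h0)]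
  refine tsum_congr fun n => ?_
  have : (((ee R.α * z : Circle) : ℂ)) ^ (R.q n) = (ee (R.q n * R.α) : ℂ) * (z : ℂ) ^ (R.q n) := by
    rw [ee_nat, Circle.coe_mul, mul_pow, Circle.coe_pow]
  rw [this]
  ring

lemma VV_inv (R : Rates) (h : IsLin κ.1) (h' : IsLin κ'.1)
    (hg : ∀ i j, κ'.1 (g i) (g j) = κ.1 i j) (z : ℂ) {x : ℝ × ℝ} (hx : 0 ≤ x.2) :
    VV R κ'.1 g.symm P' P z (Th κ.1 g x) = - VV R κ.1 g P P' z x := by
  unfold VV
  rw [← tsum_neg]
  refine tsum_congr fun n => ?_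
  rw [Th_inv h h' hg hx]
  ring

/-! ### the plane coordinate -/

lemma S2_sq (p : S2) : ‖p.1.1‖ ^ 2 + p.1.2 ^ 2 = 1 := p.2

lemma S2_mem (p : S2) : p.1.2 ∈ Icc (-1:ℝ) 1 := by
  have := S2_sq p
  constructor <;> nlinarith [sq_nonneg ‖p.1.1‖]

lemma plane_mem (p : MM) : plane p ∈ Rect := by
  refine ⟨circle_re_mem _, ?_⟩
  have := S2_mem p.2.2
  unfold plane
  constructor
  · simp only; linarith [this.1]
  · simp only; linarith [this.2]

lemma S2_coe_cont : Continuous fun p : S2 => (p.1 : ℂ × ℝ) := continuous_subtype_val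

lemma plane_cont : Continuous plane := by
  unfold plane
  have h1 : Continuous fun p : MM => (p.2.1 : ℂ).re :=
    Complex.continuous_re.comp (circle_coe_cont.comp (continuous_fst.comp continuous_snd))
  have h2 : Continuous fun p : MM => p.2.2.1.2 :=
    continuous_snd.comp (S2_coe_cont.comp (continuous_snd.comp continuous_snd))
  exact h1.prodMk ((continuous_const.add h2).div_const _)

lemma Th_plane_cont : Continuous fun p : MM => Th r g (plane p) := by
  unfold Th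
  exact ((th_cont g).comp (continuous_fst.comp plane_cont)).prodMk
    (rh_cont (continuous_fst.comp plane_cont) (continuous_snd.comp plane_cont)
      fun p => (plane_mem p).2.1)

lemma VV_contAt (R : Rates) (hP : Amp κ P) (hP' : Amp κ' P') (h : IsLin κ.1) (h' : IsLin κ'.1)
    (hg : ∀ i j, κ'.1 (g i) (g j) = κ.1 i j) (hl : ∀ i, κ'.2 (g i) = κ.2 i) (p : MM)
    (h0 : 0 < (plane p).2) :
    ContinuousAt (fun p : MM => VV R κ.1 g P P' p.1 (plane p)) p := by
  have hc : 0 < (plane p).2 / 2 := by linarith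
  obtain ⟨u, hu, hb⟩ := term_bound (g := g) hP hP' h h' hg hl hc
  have hopen : IsOpen {y : MM | (plane p).2 / 2 < (plane y).2} :=
    isOpen_lt continuous_const (continuous_snd.comp plane_cont)
  have hcon : ContinuousOn (fun p : MM => VV R κ.1 g P P' p.1 (plane p))
      {y : MM | (plane p).2 / 2 < (plane y).2} := by
    unfold VV
    refine continuousOn_tsum (fun n => Continuous.continuousOn ?_) hu ?_
    · have h1 : Continuous fun y : MM => P' n (Th κ.1 g (plane y)) :=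
        (hP'.cont n).comp Th_plane_cont
      have h2 : Continuous fun y : MM => P n (plane y) := (hP.cont n).comp plane_cont
      have h3 : Continuous fun y : MM => ((y.1 : ℂ) ^ (R.q n)).re :=
        Complex.continuous_re.comp ((circle_coe_cont.comp continuous_fst).pow _)
      exact (continuous_const.mul (h1.sub h2)).mul h3
    · intro n y hy
      rw [Real.norm_eq_abs, abs_mul]
      have h1 := hb n (plane y) (plane_mem y) (le_of_lt hy)
      have h2 := re_pow_le y.1 (R.q n)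
      nlinarith [abs_nonneg (2 * (P' n (Th κ.1 g (plane y)) - P n (plane y)))]
  refine hcon.continuousAt (hopen.mem_nhds ?_)
  show (plane p).2 / 2 < (plane p).2
  linarith

/-! ### the conjugacy -/

/-- new last coordinate -/
noncomputable def yy (r : ℕ → ℕ → Bool) (g : ℕ ≃ ℕ) (p : MM) : ℝ := 2 * (Th r g (plane p)).2 - 1

lemma yy_cont : Continuous (yy r g) :=
  (continuous_const.mul (continuous_snd.comp Th_plane_cont)).sub continuous_const

lemma yy_sq_le (h : IsLin r) (p : MM) : yy r g p ^ 2 ≤ 1 := by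
  have := (Th_mem (g := g) h (plane_mem p)).2
  unfold yy
  nlinarith [this.1, this.2]

lemma w_zero {p : S2} (h : p.1.1 = 0) : p.1.2 = 1 ∨ p.1.2 = -1 := by
  have := S2_sq p
  rw [h, norm_zero] at this
  exact sq_eq_one_iff_of_side_eq (by linarith)

lemma yy_end {p : MM} (hw : p.2.2.1.1 = 0) : yy r g p ^ 2 = 1 := by
  unfold yy Th
  simp only
  rcases w_zero hw with h1 | h1
  · have : (plane p).2 = 1 := by unfold plane; simp only; rw [h1]; norm_num
    rw [this, rh_one]; norm_num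
  · have : (plane p).2 = 0 := by unfold plane; simp only; rw [h1]; norm_num
    rw [this, rh_zero]; norm_num

lemma yy_lt (h : IsLin r) (h' : IsLin r') (hg : ∀ i j, r' (g i) (g j) = r i j) {p : MM}
    (hw : p.2.2.1.1 ≠ 0) : yy r g p ^ 2 < 1 := by
  refine lt_of_le_of_ne (yy_sq_le h p) fun hc => hw ?_
  have hinv := rh_inv h h' hg (s := (plane p).1) (plane_mem p).2.1
  have hfin : p.2.2.1.2 ^ 2 = 1 → p.2.2.1.1 = 0 := by
    intro h1
    have := S2_sq p.2.2
    have h2 : ‖p.2.2.1.1‖ ^ 2 = 0 := by linarith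
    exact norm_eq_zero.1 (pow_eq_zero_iff two_ne_zero |>.1 h2)
  apply hfin
  have hpl : p.2.2.1.2 = 2 * (plane p).2 - 1 := by unfold plane; simp only; ring
  rw [hpl]
  unfold yy Th at hc
  simp only at hc
  rcases sq_eq_one_iff_of_side_eq hc with h1 | h1
  · have h2 : rh r g (plane p).1 (plane p).2 = 1 := by linarith
    rw [h2, rh_one] at hinv
    rw [← hinv]; norm_num
  · have h2 : rh r g (plane p).1 (plane p).2 = 0 := by linarith
    rw [h2, rh_zero] at hinv
    rw [← hinv]; norm_num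

/-- the conjugacy -/
noncomputable def hm (R : Rates) (h : IsLin κ.1) (g : ℕ ≃ ℕ) (P P' : ℕ → ℝ × ℝ → ℝ) (p : MM) : MM :=
  (p.1, circ h g p.2.1, ⟨((ee (VV R κ.1 g P P' p.1 (plane p)) : ℂ) * sus (yy κ.1 g p) p.2.2.1.1,
    yy κ.1 g p), by
      simp only [norm_mul, Circle.norm_coe, one_mul]
      exact sus_norm (yy_sq_le h p) yy_end⟩)

lemma hm_plane (R : Rates) (h : IsLin κ.1) (p : MM) :
    plane (hm R h g P P' p) = Th κ.1 g (plane p) := by
  apply Prod.ext
  · rfl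
  · show (1 + yy κ.1 g p) / 2 = _
    unfold yy
    ring

lemma hm_inv (R : Rates) (h : IsLin κ.1) (h' : IsLin κ'.1)
    (hg : ∀ i j, κ'.1 (g i) (g j) = κ.1 i j) (p : MM) :
    hm R h' g.symm P' P (hm R h g P P' p) = p := by
  have hyy : yy κ'.1 g.symm (hm R h g P P' p) = p.2.2.1.2 := by
    unfold yy
    rw [hm_plane, Th_inv h h' hg (plane_mem p).2.1]
    unfold plane; simp only; ring
  refine Prod.ext rfl (Prod.ext (circ_inv h h' hg _) (Subtype.ext (Prod.ext ?_ hyy)))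
  show (ee (VV R κ'.1 g.symm P' P (hm R h g P P' p).1 (plane (hm R h g P P' p))) : ℂ) *
    sus (yy κ'.1 g.symm (hm R h g P P' p)) ((ee (VV R κ.1 g P P' p.1 (plane p)) : ℂ) *
      sus (yy κ.1 g p) p.2.2.1.1) = p.2.2.1.1
  rw [hyy, hm_plane, sus_rot]
  have h1 : (hm R h g P P' p).1 = p.1 := rfl
  rw [h1, VV_inv R h h' hg _ (plane_mem p).2.1, ee_neg, ← mul_assoc, ← Circle.coe_mul,
    inv_mul_cancel, Circle.coe_one, one_mul]
  exact sus_sus (S2_sq _) fun hw => yy_lt h h' hg hw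

lemma hm_cont (R : Rates) (hP : Amp κ P) (hP' : Amp κ' P') (h : IsLin κ.1) (h' : IsLin κ'.1)
    (hg : ∀ i j, κ'.1 (g i) (g j) = κ.1 i j) (hl : ∀ i, κ'.2 (g i) = κ.2 i) :
    Continuous (hm R h g P P') := by
  have hw : Continuous fun p : MM => p.2.2.1.1 :=
    continuous_fst.comp (S2_coe_cont.comp (continuous_snd.comp continuous_snd))
  refine continuous_fst.prodMk (((circ_cont h g).comp (continuous_fst.comp continuous_snd)).prodMk
    (Continuous.subtype_mk (Continuous.prodMk ?_ yy_cont) _))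
  have h1 : ∀ p : MM, (ee (VV R κ.1 g P P' p.1 (plane p)) : ℂ) * sus (yy κ.1 g p) p.2.2.1.1 =
      sus (yy κ.1 g p) ((ee (VV R κ.1 g P P' p.1 (plane p)) : ℂ) * p.2.2.1.1) := fun p =>
    (sus_rot _ _ _).symm
  simp only [h1]
  refine sus_cont yy_cont (fun p hp => ?_) fun p hp => ?_
  · have hp' : p.2.2.1.1 ≠ 0 := right_ne_zero_of_mul hp
    have h0 : 0 < (plane p).2 := by
      refine lt_of_le_of_ne (plane_mem p).2.1 fun hc => hp' ?_
      have h2 : p.2.2.1.2 = -1 := by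
        have : (plane p).2 = (1 + p.2.2.1.2) / 2 := rfl
        linarith
      have h3 := S2_sq p.2.2
      rw [h2] at h3
      have h4 : ‖p.2.2.1.1‖ ^ 2 = 0 := by linarith
      exact norm_eq_zero.1 (pow_eq_zero_iff two_ne_zero |>.1 h4)
    have h5 := VV_contAt R hP hP' h h' hg hl p h0
    exact ((circle_coe_cont.comp ee_cont).continuousAt.comp h5).mul hw.continuousAt
  · apply yy_end
    rcases mul_eq_zero.1 hp with h2 | h2
    · exact absurd h2 (Circle.coe_ne_zero _)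
    · exact h2

lemma hm_conj (R : Rates) (hP : Amp κ P) (hP' : Amp κ' P') (h : IsLin κ.1) (h' : IsLin κ'.1)
    (hg : ∀ i j, κ'.1 (g i) (g j) = κ.1 i j) (hl : ∀ i, κ'.2 (g i) = κ.2 i) (p : MM) :
    hm R h g P P' (tw R P p) = tw R P' (hm R h g P P' p) := by
  have hpl : plane (tw R P p) = plane p := rfl
  have hyy : yy κ.1 g (tw R P p) = yy κ.1 g p := rfl
  refine Prod.ext rfl (Prod.ext rfl (Subtype.ext (Prod.ext ?_ rfl)))
  show (ee (VV R κ.1 g P P' ((ee R.α * p.1 : Circle) : ℂ) (plane p)) : ℂ) *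
      sus (yy κ.1 g p) ((ee (Phi R P p.1 (plane p)) : ℂ) * p.2.2.1.1) =
    (ee (Phi R P' p.1 (plane (hm R h g P P' p))) : ℂ) *
      ((ee (VV R κ.1 g P P' p.1 (plane p)) : ℂ) * sus (yy κ.1 g p) p.2.2.1.1)
  rw [hm_plane, sus_rot, ← mul_assoc, ← mul_assoc, ← Circle.coe_mul, ← Circle.coe_mul,
    ← ee_add, ← ee_add]
  by_cases hw : p.2.2.1.1 = 0
  · rw [hw]; simp [sus]
  · have h0 : 0 < (plane p).2 := by
      refine lt_of_le_of_ne (plane_mem p).2.1 fun hc => hw ?_
      have h2 : p.2.2.1.2 = -1 := by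
        have : (plane p).2 = (1 + p.2.2.1.2) / 2 := rfl
        linarith
      have h3 := S2_sq p.2.2
      rw [h2] at h3
      have h4 : ‖p.2.2.1.1‖ ^ 2 = 0 := by linarith
      exact norm_eq_zero.1 (pow_eq_zero_iff two_ne_zero |>.1 h4)
    rw [VV_cocycle R hP hP' h h' hg hl p.1 (plane_mem p) h0]

end ANB.H31

namespace ANB

/-- **MODULE H** -/
theorem conj_of_iso (R : Rates) {κ κ' : (ℕ → ℕ → Bool) × (ℕ → ℕ)} {P P' : ℕ → ℝ × ℝ → ℝ}
    (hP : Amp κ P) (hP' : Amp κ' P') (h : IsLin κ.1) (h' : IsLin κ'.1) (hi : Iso κ κ') :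
    ∃ h : MM ≃ₜ MM, ∀ p, h (tw R P p) = tw R P' (h p) := by
  obtain ⟨g, hg, hl⟩ := hi
  have hg' : ∀ i j, κ.1 (g.symm i) (g.symm j) = κ'.1 i j := fun i j => by
    rw [← hg]; simp
  have hl' : ∀ i, κ.2 (g.symm i) = κ'.2 i := fun i => by
    rw [← hl]; simp
  have hri : Function.RightInverse (H31.hm R h' g.symm P' P) (H31.hm R h g P P') := fun p => by
    have := H31.hm_inv (P := P') (P' := P) R h' h hg' p
    rwa [Equiv.symm_symm] at this
  exact ⟨⟨⟨H31.hm R h g P P', H31.hm R h' g.symm P' P, H31.hm_inv R h h' hg, hri⟩,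
    H31.hm_cont R hP hP' h h' hg hl, H31.hm_cont R hP' hP h' h hg' hl'⟩,
    H31.hm_conj R hP hP' h h' hg hl⟩

end ANB

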